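import Mathlib

set_option autoImplicit false

namespace Pool.Agent.Lib.MP_5adcc8_co

/-- A binary matrix with `m` rows and `n` columns; `true` is the entry 1, `false` the entry 0. -/
structure Mat where
  m : ℕ
  n : ℕ
  e : Fin m → Fin n → Bool

/-- Merge the adjacent rows `i` and `i+1` into one row (entrywise maximum). -/
def rowContract {m n : ℕ} (e : Fin (m + 1) → Fin n → Bool) (i : Fin m) : Fin m → Fin n → Bool :=
  fun r c => if r < i then e r.castSucc c
    else if r = i then (e r.castSucc c || e r.succ c) else e r.succ c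

/-- Merge the adjacent columns `j` and `j+1` into one column (entrywise maximum). -/
def colContract {m n : ℕ} (e : Fin m → Fin (n + 1) → Bool) (j : Fin n) : Fin m → Fin n → Bool :=
  fun r c => if c < j then e r c.castSucc
    else if c = j then (e r c.castSucc || e r c.succ) else e r c.succ

/-- `Contracts M N`: a sequence of row and column contractions turns `M` into `N`. -/
inductive Contracts : Mat → Mat → Prop
  | refl (M : Mat) : Contracts M M
  | row {m n : ℕ} (e : Fin (m + 1) → Fin n → Bool) (i : Fin m) (N : Mat) :
      Contracts ⟨m, n, rowContract e i⟩ N → Contracts ⟨m + 1, n, e⟩ N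
  | col {m n : ℕ} (e : Fin m → Fin (n + 1) → Bool) (j : Fin n) (N : Mat) :
      Contracts ⟨m, n, colContract e j⟩ N → Contracts ⟨m, n + 1, e⟩ N

/-- `P` is an interval minor of `M`. -/
def IntervalMinor (P M : Mat) : Prop :=
  ∃ e : Fin P.m → Fin P.n → Bool, Contracts M ⟨P.m, P.n, e⟩ ∧
    ∀ i j, P.e i j = true → e i j = true

/-- The matrices avoiding every member of `F`. -/
def Av (F : Set Mat) : Set Mat := {M | ∀ P ∈ F, ¬ IntervalMinor P M}

/-- Change the entry `(r, c)` to 1. -/
def setOne (M : Mat) (r : Fin M.m) (c : Fin M.n) : Mat :=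
  ⟨M.m, M.n, fun x y => if x = r ∧ y = c then true else M.e x y⟩

/-- `M` is critical for the class `C`. -/
def Critical (C : Set Mat) (M : Mat) : Prop :=
  M ∈ C ∧ ∀ r c, M.e r c = false → setOne M r c ∉ C

/-- The positions `a, …, b` form a maximal block of consecutive 0-entries of the line `v`. -/
def IsZeroRun {n : ℕ} (v : Fin n → Bool) (a b : Fin n) : Prop :=
  a ≤ b ∧ (∀ j, a ≤ j → j ≤ b → v j = false) ∧
    (∀ j : Fin n, j.val + 1 = a.val → v j = true) ∧ (∀ j : Fin n, j.val = b.val + 1 → v j = true)

/-- The number of 0-runs of a line. -/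
noncomputable def zeroRuns {n : ℕ} (v : Fin n → Bool) : ℕ :=
  {p : Fin n × Fin n | IsZeroRun v p.1 p.2}.ncard

/-- Row-complexity and column-complexity of `C` are both finite. -/
def Bounded (C : Set Mat) : Prop :=
  (∃ B : ℕ, ∀ M, Critical C M → ∀ r, zeroRuns (fun c => M.e r c) ≤ B) ∧
  (∃ B : ℕ, ∀ M, Critical C M → ∀ c, zeroRuns (fun r => M.e r c) ≤ B)

/-- `Q` is obtained from `P` by inserting empty rows and columns: `P` sits in `Q` on the rows
`f i` and the columns `g j`, in order, and all other rows and columns of `Q` are empty. -/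
def InsertsEmpty (P Q : Mat) : Prop :=
  ∃ (f : Fin P.m → Fin Q.m) (g : Fin P.n → Fin Q.n), StrictMono f ∧ StrictMono g ∧
    (∀ i j, Q.e (f i) (g j) = P.e i j) ∧
    ∀ x y, Q.e x y = true → x ∈ Set.range f ∧ y ∈ Set.range g

/-- The identity matrix of order 3. -/
def D3 : Mat := ⟨3, 3, ![![true, false, false], ![false, true, false], ![false, false, true]]⟩
/-- The permutation matrix 213. -/
def Q1 : Mat := ⟨3, 3, ![![false, true, false], ![true, false, false], ![false, false, true]]⟩
/-- `D3` with an empty row between the last two rows. -/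
def D3p : Mat := ⟨4, 3,
  ![![true, false, false], ![false, true, false], ![false, false, false], ![false, false, true]]⟩
/-- `Q1` with an empty row between the first two rows. -/
def Q1p : Mat := ⟨4, 3,
  ![![false, true, false], ![false, false, false], ![true, false, false], ![false, false, true]]⟩

end Pool.Agent.Lib.MP_5adcc8_co
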