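import Pool.Agent.Lib.MP_5adcc8_co.Defs

set_option autoImplicit false

namespace Pool.Agent.Lib.MP_5adcc8_co

/-- The 1-entries as a relation on natural numbers. -/
def Mat.O (M : Mat) (x y : ℕ) : Prop := ∃ (hx : x < M.m) (hy : y < M.n), M.e ⟨x, hx⟩ ⟨y, hy⟩ = true

/-- Monotone and 1-Lipschitz. -/
def ML (f : ℕ → ℕ) : Prop := ∀ x x', x ≤ x' → f x ≤ f x' ∧ f x' + x ≤ f x + x'

theorem ML.comp {f g : ℕ → ℕ} (hf : ML f) (hg : ML g) : ML (f ∘ g) := by
  intro x x' h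
  have h1 := hg x x' h
  have h2 := hf _ _ h1.1
  simp only [Function.comp]
  omega

/-- The index map of a contraction. -/
def down (i x : ℕ) : ℕ := if x ≤ i then x else x - 1

theorem ML_down (i : ℕ) : ML (down i) := by
  intro x x' h
  unfold down
  split_ifs <;> omega

theorem ML_id : ML id := fun x x' h => by simp only [id]; omega

theorem row_O {m n : ℕ} (e : Fin (m + 1) → Fin n → Bool) (i : Fin m) (a b : ℕ) :
    (Mat.mk m n (rowContract e i)).O a b ↔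
      ∃ x, down i x = a ∧ (Mat.mk (m + 1) n e).O x b := by
  constructor
  · rintro ⟨ha, hb, h⟩
    simp only [rowContract] at h
    simp only at ha hb
    split_ifs at h with h1 h2
    · have : a < i := h1
      exact ⟨a, by unfold down; split_ifs <;> omega, by simp only; omega, hb, h⟩
    · have h3 : a = i := congrArg Fin.val h2
      rcases Bool.or_eq_true_iff.1 h with h | h
      · exact ⟨a, by unfold down; split_ifs <;> omega, by simp only; omega, hb, h⟩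
      · exact ⟨a + 1, by unfold down; split_ifs <;> omega, by simp only; omega, hb, h⟩
    · have h3 : ¬ a < i := h1
      have h4 : a ≠ i := fun h => h2 (Fin.ext h)
      exact ⟨a + 1, by unfold down; split_ifs <;> omega, by simp only; omega, hb, h⟩
  · rintro ⟨x, rfl, hx, hb, h⟩
    simp only at hx hb h
    have hi := i.2
    refine ⟨by simp only; unfold down; split_ifs <;> omega, hb, ?_⟩
    simp only [rowContract, Fin.lt_def, Fin.ext_iff]
    by_cases h1 : x ≤ i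
    · have h2 : down i x = x := by unfold down; simp [h1]
      simp only [h2]
      split_ifs with h3 h4
      · exact h
      · rw [Bool.or_eq_true_iff]; left; exact h
      · omega
    · have h2 : down i x = x - 1 := by unfold down; simp [h1]
      have h5 : x - 1 + 1 = x := by omega
      simp only [h2]
      split_ifs with h3 h4
      · omega
      · rw [Bool.or_eq_true_iff]; right
        simp only [Fin.succ, h5]; exact h
      · simp only [Fin.succ, h5]; exact h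

theorem col_O {m n : ℕ} (e : Fin m → Fin (n + 1) → Bool) (j : Fin n) (a b : ℕ) :
    (Mat.mk m n (colContract e j)).O a b ↔
      ∃ y, down j y = b ∧ (Mat.mk m (n + 1) e).O a y := by
  have := row_O (fun c r => e r c) j b a
  constructor
  · rintro ⟨ha, hb, h⟩
    obtain ⟨y, hy, h1, h2, h3⟩ := this.1 ⟨hb, ha, h⟩
    exact ⟨y, hy, h2, h1, h3⟩
  · rintro ⟨y, hy, h1, h2, h3⟩
    obtain ⟨ha, hb, h⟩ := this.2 ⟨y, hy, h2, h1, h3⟩
    exact ⟨hb, ha, h⟩

theorem Contracts.maps {M N : Mat} (h : Contracts M N) :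
    ∃ f g : ℕ → ℕ, ML f ∧ ML g ∧ ∀ a b, N.O a b → ∃ x y, f x = a ∧ g y = b ∧ M.O x y := by
  induction h with
  | refl M => exact ⟨id, id, ML_id, ML_id, fun a b h => ⟨a, b, rfl, rfl, h⟩⟩
  | row e i N _ ih =>
    obtain ⟨f, g, hf, hg, h⟩ := ih
    refine ⟨f ∘ down i, g, hf.comp (ML_down i), hg, fun a b hab => ?_⟩
    obtain ⟨x, y, hx, hy, h1⟩ := h a b hab
    obtain ⟨x', hx', h2⟩ := (row_O e i x y).1 h1
    exact ⟨x', y, by simp [hx', hx], hy, h2⟩
  | col e j N _ ih =>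
    obtain ⟨f, g, hf, hg, h⟩ := ih
    refine ⟨f, g ∘ down j, hf, hg.comp (ML_down j), fun a b hab => ?_⟩
    obtain ⟨x, y, hx, hy, h1⟩ := h a b hab
    obtain ⟨y', hy', h2⟩ := (col_O e j x y).1 h1
    exact ⟨x, y', hx, by simp [hy', hy], h2⟩

theorem IntervalMinor.maps {P M : Mat} (h : IntervalMinor P M) :
    ∃ f g : ℕ → ℕ, ML f ∧ ML g ∧ ∀ a b, P.O a b → ∃ x y, f x = a ∧ g y = b ∧ M.O x y := by
  obtain ⟨e, h1, h2⟩ := h
  obtain ⟨f, g, hf, hg, h⟩ := h1.maps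
  refine ⟨f, g, hf, hg, fun a b ⟨ha, hb, hab⟩ => h a b ⟨ha, hb, h2 _ _ hab⟩⟩

theorem shrink {k m : ℕ} (hk : 0 < k) (hkm : k ≤ m) (ρ : Fin k → ℕ) (hρ : StrictMono ρ)
    (hlt : ∀ i, ρ i < m + 1) :
    ∃ i : Fin m, StrictMono (fun t => down i (ρ t)) ∧ ∀ t, down i (ρ t) < m := by
  have hns : ∃ x < m + 1, ∀ t, ρ t ≠ x := by
    by_contra hcon
    push Not at hcon
    have hsub : Finset.range (m + 1) ⊆ Finset.univ.image ρ := by
      intro x hx
      obtain ⟨t, ht⟩ := hcon x (Finset.mem_range.1 hx)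
      exact Finset.mem_image.2 ⟨t, Finset.mem_univ _, ht⟩
    have h1 := Finset.card_le_card hsub
    have h2 := Finset.card_image_le (s := (Finset.univ : Finset (Fin k))) (f := ρ)
    simp at h1 h2
    omega
  obtain ⟨x, hx, hxn⟩ := hns
  by_cases h : x < m
  · refine ⟨⟨x, h⟩, fun s t hst => ?_, fun t => ?_⟩
    · have := hρ hst
      have := hxn s
      have := hxn t
      simp only [down]
      split_ifs <;> omega
    · have := hlt t
      simp only [down]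
      split_ifs <;> omega
  · refine ⟨⟨m - 1, by omega⟩, fun s t hst => ?_, fun t => ?_⟩
    · have := hρ hst
      have := hxn s
      have := hxn t
      have := hlt s
      have := hlt t
      simp only [down]
      split_ifs <;> omega
    · have := hlt t
      have := hxn t
      simp only [down]
      split_ifs <;> omega

theorem strictMono_fin_bounds {k : ℕ} (ρ : Fin k → ℕ) (hρ : StrictMono ρ) (m : ℕ)
    (hlt : ∀ i, ρ i < m) : (k ≤ m ∨ k = 0) ∧ (m = k → ∀ i, ρ i = i) := by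
  constructor
  · left
    have := Fintype.card_le_of_injective (fun i => (⟨ρ i, hlt i⟩ : Fin m))
      (fun s t h => hρ.injective (congrArg Fin.val h))
    simpa using this
  · rintro rfl i
    have h1 : StrictMono (fun i => (⟨ρ i, hlt i⟩ : Fin m)) := fun s t h => hρ h
    have := (h1.range_inj strictMono_id).1 (by
      rw [Set.range_id]
      exact (Finite.injective_iff_surjective.1 h1.injective).range_eq)
    exact congrArg Fin.val (congrFun this i)

theorem minor_of_sub (P : Mat) (hk : 0 < P.m) (hl : 0 < P.n) :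
    ∀ (s : ℕ) (M : Mat), M.m + M.n = s → ∀ (ρ : Fin P.m → ℕ) (γ : Fin P.n → ℕ),
      StrictMono ρ → StrictMono γ → (∀ i, ρ i < M.m) → (∀ j, γ j < M.n) →
      (∀ i j, P.e i j = true → M.O (ρ i) (γ j)) → IntervalMinor P M := by
  intro s
  induction s using Nat.strong_induction_on with
  | _ s ih =>
    rintro ⟨m, n, e⟩ hs ρ γ hρ hγ hρl hγl h
    simp only at hs hρl hγl
    obtain ⟨h1, h2⟩ := strictMono_fin_bounds ρ hρ m hρl
    obtain ⟨h3, h4⟩ := strictMono_fin_bounds γ hγ n hγl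
    by_cases hm : P.m < m
    · obtain ⟨m, rfl⟩ : ∃ m', m = m' + 1 := ⟨m - 1, by omega⟩
      obtain ⟨i, hi1, hi2⟩ := shrink hk (by omega) ρ hρ hρl
      obtain ⟨e', he1, he2⟩ := ih (m + n) (by omega) ⟨m, n, rowContract e i⟩ rfl _ γ hi1 hγ hi2 hγl
        (fun a b hab => (row_O e i _ _).2 ⟨ρ a, rfl, h a b hab⟩)
      exact ⟨e', Contracts.row e i _ he1, he2⟩
    by_cases hn : P.n < n
    · obtain ⟨n, rfl⟩ : ∃ n', n = n' + 1 := ⟨n - 1, by omega⟩
      obtain ⟨j, hj1, hj2⟩ := shrink hl (by omega) γ hγ hγl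
      obtain ⟨e', he1, he2⟩ := ih (m + n) (by omega) ⟨m, n, colContract e j⟩ rfl ρ _ hρ hj1 hρl hj2
        (fun a b hab => (col_O e j _ _).2 ⟨γ b, rfl, h a b hab⟩)
      exact ⟨e', Contracts.col e j _ he1, he2⟩
    obtain rfl : m = P.m := by omega
    obtain rfl : n = P.n := by omega
    refine ⟨e, Contracts.refl _, fun i j hij => ?_⟩
    obtain ⟨ha, hb, hab⟩ := h i j hij
    simp only [h2 rfl i, h4 rfl j] at hab
    exact hab

/-- An increasing chain with row gaps. -/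
def HasD (a b : ℕ) (O : ℕ → ℕ → Prop) : Prop :=
  ∃ x₁ x₂ x₃ y₁ y₂ y₃, x₁ + a ≤ x₂ ∧ x₂ + b ≤ x₃ ∧ y₁ < y₂ ∧ y₂ < y₃ ∧ O x₁ y₁ ∧ O x₂ y₂ ∧ O x₃ y₃

/-- A copy of 213 with row gaps. -/
def HasQ (a b : ℕ) (O : ℕ → ℕ → Prop) : Prop :=
  ∃ x₁ x₂ x₃ y₁ y₂ y₃, x₁ + a ≤ x₂ ∧ x₂ + b ≤ x₃ ∧ y₁ < y₂ ∧ y₂ < y₃ ∧ O x₁ y₂ ∧ O x₂ y₁ ∧ O x₃ y₃

theorem ML.gap {f : ℕ → ℕ} (hf : ML f) {x x' a : ℕ} (ha : 0 < a) (h : f x + a ≤ f x') :
    x + a ≤ x' := by
  by_cases h1 : x ≤ x'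
  · have := hf x x' h1
    omega
  · have := hf x' x (by omega)
    omega

theorem minor_D3 (M : Mat) : IntervalMinor D3 M ↔ HasD 1 1 M.O := by
  constructor
  · intro h
    obtain ⟨f, g, hf, hg, h⟩ := h.maps
    obtain ⟨x₁, y₁, h1, h1', h1''⟩ := h 0 0 ⟨by decide, by decide, by decide⟩
    obtain ⟨x₂, y₂, h2, h2', h2''⟩ := h 1 1 ⟨by decide, by decide, by decide⟩
    obtain ⟨x₃, y₃, h3, h3', h3''⟩ := h 2 2 ⟨by decide, by decide, by decide⟩
    exact ⟨x₁, x₂, x₃, y₁, y₂, y₃, hf.gap (by omega) (by omega), hf.gap (by omega) (by omega),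
      hg.gap (a := 1) (by omega) (by omega), hg.gap (a := 1) (by omega) (by omega),
      h1'', h2'', h3''⟩
  · rintro ⟨x₁, x₂, x₃, y₁, y₂, y₃, h1, h2, h3, h4, h5, h6, h7⟩
    have hx := h7.1
    have hy := h7.2.1
    refine minor_of_sub D3 (by decide) (by decide) _ M rfl ![x₁, x₂, x₃] ![y₁, y₂, y₃] ?_ ?_ ?_ ?_ ?_
    · refine Fin.strictMono_iff_lt_succ.2 (fun i => ?_)
      fin_cases i <;> simp <;> omega
    · refine Fin.strictMono_iff_lt_succ.2 (fun i => ?_)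
      fin_cases i <;> simp <;> omega
    · show ∀ i : Fin 3, ![x₁, x₂, x₃] i < M.m
      intro i
      fin_cases i <;> simp <;> omega
    · show ∀ i : Fin 3, ![y₁, y₂, y₃] i < M.n
      intro i
      fin_cases i <;> simp <;> omega
    · intro i j
      fin_cases i <;> fin_cases j <;> simp [D3] <;> assumption

theorem minor_Q1 (M : Mat) : IntervalMinor Q1 M ↔ HasQ 1 1 M.O := by
  constructor
  · intro h
    obtain ⟨f, g, hf, hg, h⟩ := h.maps
    obtain ⟨x₁, y₂, h1, h1', h1''⟩ := h 0 1 ⟨by decide, by decide, by decide⟩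
    obtain ⟨x₂, y₁, h2, h2', h2''⟩ := h 1 0 ⟨by decide, by decide, by decide⟩
    obtain ⟨x₃, y₃, h3, h3', h3''⟩ := h 2 2 ⟨by decide, by decide, by decide⟩
    exact ⟨x₁, x₂, x₃, y₁, y₂, y₃, hf.gap (by omega) (by omega), hf.gap (by omega) (by omega),
      hg.gap (a := 1) (by omega) (by omega), hg.gap (a := 1) (by omega) (by omega),
      h1'', h2'', h3''⟩
  · rintro ⟨x₁, x₂, x₃, y₁, y₂, y₃, h1, h2, h3, h4, h5, h6, h7⟩
    have hx := h7.1
    have hy := h7.2.1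
    refine minor_of_sub Q1 (by decide) (by decide) _ M rfl ![x₁, x₂, x₃] ![y₁, y₂, y₃] ?_ ?_ ?_ ?_ ?_
    · refine Fin.strictMono_iff_lt_succ.2 (fun i => ?_)
      fin_cases i <;> simp <;> omega
    · refine Fin.strictMono_iff_lt_succ.2 (fun i => ?_)
      fin_cases i <;> simp <;> omega
    · show ∀ i : Fin 3, ![x₁, x₂, x₃] i < M.m
      intro i
      fin_cases i <;> simp <;> omega
    · show ∀ i : Fin 3, ![y₁, y₂, y₃] i < M.n
      intro i
      fin_cases i <;> simp <;> omega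
    · intro i j
      fin_cases i <;> fin_cases j <;> simp [Q1] <;> assumption

theorem minor_D3p (M : Mat) : IntervalMinor D3p M → HasD 1 2 M.O := by
  intro h
  obtain ⟨f, g, hf, hg, h⟩ := h.maps
  obtain ⟨x₁, y₁, h1, h1', h1''⟩ := h 0 0 ⟨by decide, by decide, by decide⟩
  obtain ⟨x₂, y₂, h2, h2', h2''⟩ := h 1 1 ⟨by decide, by decide, by decide⟩
  obtain ⟨x₃, y₃, h3, h3', h3''⟩ := h 3 2 ⟨by decide, by decide, by decide⟩
  exact ⟨x₁, x₂, x₃, y₁, y₂, y₃, hf.gap (by omega) (by omega), hf.gap (by omega) (by omega),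
    hg.gap (a := 1) (by omega) (by omega), hg.gap (a := 1) (by omega) (by omega),
    h1'', h2'', h3''⟩

theorem minor_Q1p (M : Mat) : IntervalMinor Q1p M ↔ HasQ 2 1 M.O := by
  constructor
  · intro h
    obtain ⟨f, g, hf, hg, h⟩ := h.maps
    obtain ⟨x₁, y₂, h1, h1', h1''⟩ := h 0 1 ⟨by decide, by decide, by decide⟩
    obtain ⟨x₂, y₁, h2, h2', h2''⟩ := h 2 0 ⟨by decide, by decide, by decide⟩
    obtain ⟨x₃, y₃, h3, h3', h3''⟩ := h 3 2 ⟨by decide, by decide, by decide⟩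
    exact ⟨x₁, x₂, x₃, y₁, y₂, y₃, hf.gap (by omega) (by omega), hf.gap (by omega) (by omega),
      hg.gap (a := 1) (by omega) (by omega), hg.gap (a := 1) (by omega) (by omega),
      h1'', h2'', h3''⟩
  · rintro ⟨x₁, x₂, x₃, y₁, y₂, y₃, h1, h2, h3, h4, h5, h6, h7⟩
    have hx := h7.1
    have hy := h7.2.1
    refine minor_of_sub Q1p (by decide) (by decide) _ M rfl ![x₁, x₁ + 1, x₂, x₃] ![y₁, y₂, y₃]
      ?_ ?_ ?_ ?_ ?_
    · refine Fin.strictMono_iff_lt_succ.2 (fun i => ?_)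
      fin_cases i <;> simp <;> omega
    · refine Fin.strictMono_iff_lt_succ.2 (fun i => ?_)
      fin_cases i <;> simp <;> omega
    · show ∀ i : Fin 4, ![x₁, x₁ + 1, x₂, x₃] i < M.m
      intro i
      fin_cases i <;> simp <;> omega
    · show ∀ i : Fin 3, ![y₁, y₂, y₃] i < M.n
      intro i
      fin_cases i <;> simp <;> omega
    · intro i j
      fin_cases i <;> fin_cases j <;> simp [Q1p] <;> assumption

/-- Adding one entry. -/
def addOne (O : ℕ → ℕ → Prop) (r c : ℕ) : ℕ → ℕ → Prop := fun x y => (x = r ∧ y = c) ∨ O x y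

theorem setOne_O (M : Mat) (r : Fin M.m) (c : Fin M.n) :
    (setOne M r c).O = addOne M.O r c := by
  funext x y
  apply propext
  constructor
  · rintro ⟨hx, hy, h⟩
    simp only [setOne] at h
    split_ifs at h with h1
    · left
      exact ⟨congrArg Fin.val h1.1, congrArg Fin.val h1.2⟩
    · right
      exact ⟨hx, hy, h⟩
  · rintro (⟨rfl, rfl⟩ | ⟨hx, hy, h⟩)
    · exact ⟨r.2, c.2, by simp [setOne]⟩
    · refine ⟨hx, hy, ?_⟩
      simp only [setOne]
      split_ifs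
      · rfl
      · exact h

/-- The six roles of a new entry in row `r`. -/
def Role (O : ℕ → ℕ → Prop) (r : ℕ) (t : Fin 6) (c : ℕ) : Prop :=
  ∃ x x' y y', O x y ∧ O x' y' ∧
    ((t = 0 ∧ r < x ∧ x < x' ∧ c < y ∧ y < y') ∨ (t = 1 ∧ x < r ∧ r < x' ∧ y < c ∧ c < y') ∨
     (t = 2 ∧ x < x' ∧ x' < r ∧ y < y' ∧ y' < c) ∨ (t = 3 ∧ r < x ∧ x < x' ∧ y < c ∧ c < y') ∨
     (t = 4 ∧ x < r ∧ r < x' ∧ c < y ∧ y < y') ∨ (t = 5 ∧ x < x' ∧ x' < r ∧ y' < y ∧ y < c))

theorem exists_role {O : ℕ → ℕ → Prop} (hD : ¬ HasD 1 1 O) (hQ : ¬ HasQ 1 1 O) {r c : ℕ}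
    (h : HasD 1 1 (addOne O r c) ∨ HasQ 1 1 (addOne O r c)) : ∃ t, Role O r t c := by
  rcases h with ⟨x₁, x₂, x₃, y₁, y₂, y₃, h1, h2, h3, h4, h5, h6, h7⟩ |
    ⟨x₁, x₂, x₃, y₁, y₂, y₃, h1, h2, h3, h4, h5, h6, h7⟩
  · rcases h5 with h5 | h5 <;> rcases h6 with h6 | h6 <;> rcases h7 with h7 | h7 <;>
      first
      | omega
      | exact ⟨0, x₂, x₃, y₂, y₃, h6, h7, by simp; omega⟩
      | exact ⟨1, x₁, x₃, y₁, y₃, h5, h7, by simp; omega⟩
      | exact ⟨2, x₁, x₂, y₁, y₂, h5, h6, by simp; omega⟩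
      | exact absurd ⟨x₁, x₂, x₃, y₁, y₂, y₃, h1, h2, h3, h4, h5, h6, h7⟩ hD
  · rcases h5 with h5 | h5 <;> rcases h6 with h6 | h6 <;> rcases h7 with h7 | h7 <;>
      first
      | omega
      | exact ⟨3, x₂, x₃, y₁, y₃, h6, h7, by simp; omega⟩
      | exact ⟨4, x₁, x₃, y₂, y₃, h5, h7, by simp; omega⟩
      | exact ⟨5, x₁, x₂, y₂, y₁, h5, h6, by simp; omega⟩
      | exact absurd ⟨x₁, x₂, x₃, y₁, y₂, y₃, h1, h2, h3, h4, h5, h6, h7⟩ hQ

theorem role_unique {O : ℕ → ℕ → Prop} (hD : ¬ HasD 1 1 O) (hQ : ¬ HasQ 1 1 O) {r a a' : ℕ}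
    {t : Fin 6} (h : Role O r t a) (h' : Role O r t a') (haa : a < a') (ha : ¬ O r a)
    (hl : ∀ j, j + 1 = a → O r j) (hl' : ∀ j, j + 1 = a' → O r j) : False := by
  obtain ⟨x, x', y, y', h1, h2, h3⟩ := h
  obtain ⟨z, z', w, w', h4, h5, h6⟩ := h'
  have h7 : O r (a' - 1) := hl' _ (by omega)
  have h8 : a ≠ a' - 1 := fun h => ha (h ▸ h7)
  fin_cases t
  · simp at h3 h6
    exact hD ⟨r, z, z', a' - 1, w, w', by omega, by omega, by omega, by omega, h7, h4, h5⟩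
  · simp at h3 h6
    exact hD ⟨x, r, z', y, a' - 1, w', by omega, by omega, by omega, by omega, h1, h7, h5⟩
  · simp at h3 h6
    exact hD ⟨x, x', r, y, y', a' - 1, by omega, by omega, by omega, by omega, h1, h2, h7⟩
  · simp at h3 h6
    have h9 : O r (a - 1) := hl _ (by omega)
    by_cases h10 : w < a' - 1
    · exact hQ ⟨r, z, z', w, a' - 1, w', by omega, by omega, by omega, by omega, h7, h4, h5⟩
    · exact hD ⟨r, z, z', a - 1, w, w', by omega, by omega, by omega, by omega, h9, h4, h5⟩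
  · simp at h3 h6
    exact hQ ⟨z, r, z', a' - 1, w, w', by omega, by omega, by omega, by omega, h4, h7, h5⟩
  · simp at h3 h6
    exact hQ ⟨x, x', r, y', y, a' - 1, by omega, by omega, by omega, by omega, h1, h2, h7⟩

theorem zeroRuns_le {O : ℕ → ℕ → Prop} (hD : ¬ HasD 1 1 O) (hQ : ¬ HasQ 1 1 O) {n : ℕ} (r : ℕ)
    (v : Fin n → Bool) (hv : ∀ c : Fin n, v c = true ↔ O r c)
    (hc : ∀ c : Fin n, v c = false → HasD 1 1 (addOne O r c) ∨ HasQ 1 1 (addOne O r c)) :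
    zeroRuns v ≤ 6 := by
  classical
  have hex : ∀ c : Fin n, ∃ t : Fin 6, v c = false → Role O r t c := by
    intro c
    by_cases h : v c = false
    · obtain ⟨t, ht⟩ := exists_role hD hQ (hc c h)
      exact ⟨t, fun _ => ht⟩
    · exact ⟨0, fun h' => absurd h' h⟩
  choose τ hτ using hex
  have hleft : ∀ a b : Fin n, IsZeroRun v a b → v a = false ∧ ∀ j, j + 1 = a.val → O r j := by
    intro a b h
    refine ⟨h.2.1 a le_rfl h.1, fun j hj => ?_⟩
    have := a.2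
    exact (hv ⟨j, by omega⟩).1 (h.2.2.1 ⟨j, by omega⟩ hj)
  have hinj : Set.InjOn (fun p : Fin n × Fin n => τ p.1) {p | IsZeroRun v p.1 p.2} := by
    rintro ⟨a, b⟩ h ⟨a', b'⟩ h' heq
    simp only [Set.mem_ofPred_eq] at h h' heq
    obtain ⟨h1, h2⟩ := hleft a b h
    obtain ⟨h3, h4⟩ := hleft a' b' h'
    have h5 := hτ a h1
    have h6 := hτ a' h3
    rw [← heq] at h6
    have h7 : ¬ O r a := fun h => by rw [(hv a).2 h] at h1; exact absurd h1 (by decide)
    have h8 : ¬ O r a' := fun h => by rw [(hv a').2 h] at h3; exact absurd h3 (by decide)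
    have haa : a = a' := by
      rcases lt_trichotomy a.val a'.val with h9 | h9 | h9
      · exact (role_unique hD hQ h5 h6 h9 h7 h2 h4).elim
      · exact Fin.ext h9
      · exact (role_unique hD hQ h6 h5 h9 h8 h4 h2).elim
    subst haa
    have key : ∀ b b' : Fin n, IsZeroRun v a b → IsZeroRun v a b' → ¬ b < b' := by
      intro b b' h h' hlt
      have hlt' : b.val < b'.val := hlt
      have hab : a.val ≤ b.val := h.1
      have := b'.2
      have e1 := h.2.2.2 ⟨b.val + 1, by omega⟩ rfl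
      have e2 := h'.2.1 ⟨b.val + 1, by omega⟩ (by rw [Fin.le_def]; simp only; omega)
        (by rw [Fin.le_def]; simp only; omega)
      rw [e1] at e2
      exact absurd e2 (by decide)
    have : b = b' := le_antisymm (not_lt.1 (key b' b h' h)) (not_lt.1 (key b b' h h'))
    rw [this]
  have := Set.ncard_le_ncard_of_injOn (t := (Set.univ : Set (Fin 6))) _ (fun _ _ => Set.mem_univ _)
    hinj
  simpa [zeroRuns, Set.ncard_univ] using this

theorem HasD_swap {O : ℕ → ℕ → Prop} (h : HasD 1 1 (fun x y => O y x)) : HasD 1 1 O := by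
  obtain ⟨x₁, x₂, x₃, y₁, y₂, y₃, h1, h2, h3, h4, h5, h6, h7⟩ := h
  exact ⟨y₁, y₂, y₃, x₁, x₂, x₃, h3, h4, h1, h2, h5, h6, h7⟩

theorem HasQ_swap {O : ℕ → ℕ → Prop} (h : HasQ 1 1 (fun x y => O y x)) : HasQ 1 1 O := by
  obtain ⟨x₁, x₂, x₃, y₁, y₂, y₃, h1, h2, h3, h4, h5, h6, h7⟩ := h
  exact ⟨y₁, y₂, y₃, x₁, x₂, x₃, h3, h4, h1, h2, h6, h5, h7⟩

theorem mem_Av_pair (P Q M : Mat) :
    M ∈ Av {P, Q} ↔ ¬ IntervalMinor P M ∧ ¬ IntervalMinor Q M := by
  simp [Av]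

theorem bounded_F : Bounded (Av {D3, Q1}) := by
  have key : ∀ M, Critical (Av {D3, Q1}) M → ¬ HasD 1 1 M.O ∧ ¬ HasQ 1 1 M.O ∧
      ∀ r c, M.e r c = false → HasD 1 1 (addOne M.O r c) ∨ HasQ 1 1 (addOne M.O r c) := by
    rintro M ⟨h1, h2⟩
    rw [mem_Av_pair, minor_D3, minor_Q1] at h1
    refine ⟨h1.1, h1.2, fun r c h => ?_⟩
    have := h2 r c h
    rw [mem_Av_pair, minor_D3, minor_Q1, setOne_O] at this
    tauto
  constructor
  · refine ⟨6, fun M hM r => ?_⟩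
    obtain ⟨h1, h2, h3⟩ := key M hM
    exact zeroRuns_le h1 h2 r _ (fun c => ⟨fun h => ⟨r.2, c.2, h⟩, fun h => h.2.2⟩)
      (fun c h => h3 r c h)
  · refine ⟨6, fun M hM c => ?_⟩
    obtain ⟨h1, h2, h3⟩ := key M hM
    refine zeroRuns_le (O := fun x y => M.O y x) (fun h => h1 (HasD_swap h))
      (fun h => h2 (HasQ_swap h)) c _ (fun r => ⟨fun h => ⟨r.2, c.2, h⟩, fun h => h.2.2⟩)
      (fun r h => ?_)
    have e : addOne M.O r c = fun x y => addOne (fun x y => M.O y x) c r y x := by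
      funext x y
      simp only [addOne, and_comm]
    rcases h3 r c h with h4 | h4
    · left
      rw [e] at h4
      exact HasD_swap h4
    · right
      rw [e] at h4
      exact HasQ_swap h4

theorem exists_critical (C : Set Mat) (m n : ℕ) (e : Fin m → Fin n → Bool) (h : ⟨m, n, e⟩ ∈ C) :
    ∃ e' : Fin m → Fin n → Bool, Critical C ⟨m, n, e'⟩ ∧ ∀ x y, e x y = true → e' x y = true := by
  obtain ⟨e', he1, he2⟩ := Finite.exists_le_maximal
    (p := fun e' : Fin m → Fin n → Bool => (⟨m, n, e'⟩ : Mat) ∈ C) h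
  refine ⟨e', ⟨he2.1, fun r c hrc hmem => ?_⟩, fun x y hxy => ?_⟩
  · have h1 : e' ≤ (setOne ⟨m, n, e'⟩ r c).e := by
      intro x y
      simp only [setOne]
      split_ifs
      · exact Bool.le_true _
      · exact le_rfl
    have h2 := he2.2 (y := (setOne ⟨m, n, e'⟩ r c).e) hmem h1 r c
    simp only [setOne, and_self, if_true] at h2
    simp only at hrc
    rw [hrc] at h2
    exact absurd (show true ≤ false from h2) (by decide)
  · have := he1 x y
    rw [hxy] at this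
    exact Bool.eq_true_of_true_le this

/-- The example. -/
def ex (N : ℕ) : Fin (2 * N + 2) → Fin (3 * N) → Bool := fun x y =>
  decide ((x.val = 0 ∧ y.val % 3 ≠ 1) ∨ (y.val % 3 = 0 ∧ x.val + 2 * (y.val / 3) = 2 * N) ∨
    (y.val % 3 = 2 ∧ x.val + 2 * (y.val / 3) = 2 * N + 1))

theorem ex_O (N x y : ℕ) : (Mat.mk _ _ (ex N)).O x y ↔ x < 2 * N + 2 ∧ y < 3 * N ∧
    ((x = 0 ∧ y % 3 ≠ 1) ∨ (y % 3 = 0 ∧ x + 2 * (y / 3) = 2 * N) ∨
    (y % 3 = 2 ∧ x + 2 * (y / 3) = 2 * N + 1)) := by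
  constructor
  · rintro ⟨hx, hy, h⟩
    exact ⟨hx, hy, by simpa [ex] using h⟩
  · rintro ⟨hx, hy, h⟩
    exact ⟨hx, hy, by simpa [ex] using h⟩

theorem ex_mem (N : ℕ) : (Mat.mk _ _ (ex N)) ∈ Av {D3p, Q1p} := by
  rw [mem_Av_pair, minor_Q1p]
  constructor
  · intro h
    obtain ⟨x₁, x₂, x₃, y₁, y₂, y₃, h1, h2, h3, h4, h5, h6, h7⟩ := minor_D3p _ h
    rw [ex_O] at h5 h6 h7
    omega
  · rintro ⟨x₁, x₂, x₃, y₁, y₂, y₃, h1, h2, h3, h4, h5, h6, h7⟩
    rw [ex_O] at h5 h6 h7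
    omega

theorem unbounded_Fp : ¬ Bounded (Av {D3p, Q1p}) := by
  rintro ⟨⟨B, hB⟩, -⟩
  obtain ⟨e', h1, h2⟩ := exists_critical _ _ _ _ (ex_mem (B + 1))
  have h3 := hB _ h1 ⟨0, by simp only; omega⟩
  have hO : ∀ x y, (Mat.mk _ _ (ex (B + 1))).O x y → (Mat.mk _ _ e').O x y :=
    fun x y ⟨hx, hy, h⟩ => ⟨hx, hy, h2 _ _ h⟩
  have hQ : ¬ HasQ 2 1 (Mat.mk _ _ e').O := by
    rw [← minor_Q1p]
    exact ((mem_Av_pair _ _ _).1 h1.1).2
  let f : Fin (B + 1) → Fin (3 * (B + 1)) × Fin (3 * (B + 1)) := fun i =>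
    (⟨3 * i + 1, by have := i.2; omega⟩, ⟨3 * i + 1, by have := i.2; omega⟩)
  have hf : Function.Injective f := by
    intro i j h
    have := congrArg (fun p => p.1.val) h
    simp only [f] at this
    exact Fin.ext (by omega)
  have hrun : ∀ i, IsZeroRun (fun c => e' ⟨0, by omega⟩ c) (f i).1 (f i).2 := by
    intro i
    have hi := i.2
    refine ⟨le_rfl, fun j hj1 hj2 => ?_, fun j hj => ?_, fun j hj => ?_⟩
    · have hj : j.val = 3 * i + 1 := congrArg Fin.val (le_antisymm hj2 hj1)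
      by_contra hne
      apply hQ
      refine ⟨0, 2 * (B + 1) - 2 * i, 2 * (B + 1) + 1 - 2 * i, 3 * i, j, 3 * i + 2, by omega,
        by omega, by omega, by omega, ⟨by simp only; omega, j.2, by simpa using hne⟩,
        hO _ _ ?_, hO _ _ ?_⟩
      · rw [ex_O]; omega
      · rw [ex_O]; omega
    · simp only [f] at hj
      exact (hO 0 j (by rw [ex_O]; have := j.2; omega)).2.2
    · simp only [f] at hj
      exact (hO 0 j (by rw [ex_O]; have := j.2; omega)).2.2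
  have h4 := Set.ncard_le_ncard_of_injOn (s := (Set.univ : Set (Fin (B + 1))))
    (t := {p : Fin (3 * (B + 1)) × Fin (3 * (B + 1)) |
      IsZeroRun (fun c => e' ⟨0, by omega⟩ c) p.1 p.2}) f (fun i _ => hrun i) hf.injOn
  simp only [Set.ncard_univ, Nat.card_eq_fintype_card, Fintype.card_fin] at h4
  unfold zeroRuns at h3
  exact absurd (h4.trans h3) (by omega)

theorem ins_D : InsertsEmpty D3 D3p := by
  refine ⟨(![0, 1, 3] : Fin 3 → Fin 4), (id : Fin 3 → Fin 3), ?_, strictMono_id, by decide, ?_⟩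
  · show ∀ a b : Fin 3, a < b → (![0, 1, 3] : Fin 3 → Fin 4) a < (![0, 1, 3] : Fin 3 → Fin 4) b
    decide
  · show ∀ (x : Fin 4) (y : Fin 3), D3p.e x y = true →
      (∃ i : Fin 3, (![0, 1, 3] : Fin 3 → Fin 4) i = x) ∧ ∃ j : Fin 3, j = y
    decide

theorem ins_Q : InsertsEmpty Q1 Q1p := by
  refine ⟨(![0, 2, 3] : Fin 3 → Fin 4), (id : Fin 3 → Fin 3), ?_, strictMono_id, by decide, ?_⟩
  · show ∀ a b : Fin 3, a < b → (![0, 2, 3] : Fin 3 → Fin 4) a < (![0, 2, 3] : Fin 3 → Fin 4) b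
    decide
  · show ∀ (x : Fin 4) (y : Fin 3), Q1p.e x y = true →
      (∃ i : Fin 3, (![0, 2, 3] : Fin 3 → Fin 4) i = x) ∧ ∃ j : Fin 3, j = y
    decide

theorem O_D3 (x y : ℕ) (h : D3.O x y) : x = y := by
  obtain ⟨hx, hy, h⟩ := h
  change x < 3 at hx
  change y < 3 at hy
  interval_cases x <;> interval_cases y <;> simp_all [D3]

theorem O_Q1 (x y : ℕ) (h : Q1.O x y) : (x = 0 ∧ y = 1) ∨ (x = 1 ∧ y = 0) ∨ (x = 2 ∧ y = 2) := by
  obtain ⟨hx, hy, h⟩ := h
  change x < 3 at hx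
  change y < 3 at hy
  interval_cases x <;> interval_cases y <;> simp_all [Q1]

theorem not_D_Q : ¬ IntervalMinor D3 Q1 := by
  rw [minor_D3]
  rintro ⟨x₁, x₂, x₃, y₁, y₂, y₃, h1, h2, h3, h4, h5, h6, h7⟩
  have := O_Q1 _ _ h5
  have := O_Q1 _ _ h6
  have := O_Q1 _ _ h7
  omega

theorem not_Q_D : ¬ IntervalMinor Q1 D3 := by
  rw [minor_Q1]
  rintro ⟨x₁, x₂, x₃, y₁, y₂, y₃, h1, h2, h3, h4, h5, h6, h7⟩
  have := O_D3 _ _ h5
  have := O_D3 _ _ h6
  omega

end Pool.Agent.Lib.MP_5adcc8_co
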